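import Mathlib
import Pool.Agent.Helper1.SQ.Defs

/-!
# Project SQ (MP_36c81c_nt), module SQ-S: sums over dyadic blocks, from the explicit Mertens bound `MertA`.
-/

set_option autoImplicit false
open Finset

namespace Pool.Agent.Helper25.SQ

open Pool.Agent.Helper1.SQ

lemma PB_step (i j : ℕ) (h : i ≤ j) : PB i (j + 1) = PB i j ∪ PB j (j + 1) := by
  have h1 : 2 ^ i ≤ 2 ^ j := Nat.pow_le_pow_right (by norm_num) h
  have h2 : 2 ^ j ≤ 2 ^ (j + 1) := Nat.pow_le_pow_right (by norm_num) (Nat.le_succ j)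
  ext p
  simp only [PB, mem_union, mem_filter, mem_Ioc]
  constructor
  · rintro ⟨⟨ha, hb⟩, hp⟩
    by_cases hc : p ≤ 2 ^ j
    · exact Or.inl ⟨⟨ha, hc⟩, hp⟩
    · exact Or.inr ⟨⟨by omega, hb⟩, hp⟩
  · rintro (⟨⟨ha, hb⟩, hp⟩ | ⟨⟨ha, hb⟩, hp⟩)
    · exact ⟨⟨ha, by omega⟩, hp⟩
    · exact ⟨⟨by omega, hb⟩, hp⟩

lemma PB_disj (i j : ℕ) : Disjoint (PB i j) (PB j (j + 1)) := by
  rw [Finset.disjoint_left]
  intro p hp hq
  simp only [PB, mem_filter, mem_Ioc] at hp hq
  omega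

lemma PB_self (i : ℕ) : PB i i = ∅ := by
  simp [PB]

lemma sum_PB (f : ℕ → ℝ) (i j : ℕ) (h : i ≤ j) :
    ∑ p ∈ PB i j, f p = ∑ k ∈ Ico i j, ∑ p ∈ PB k (k + 1), f p := by
  induction j, h using Nat.le_induction with
  | base => simp [PB_self]
  | succ j hj ih =>
    rw [PB_step i j hj, Finset.sum_union (PB_disj i j), ih, Finset.sum_Ico_succ_top hj]

lemma block_le (i : ℕ) :
    (i : ℝ) * Real.log 2 * sm i (i + 1) ≤ ∑ p ∈ PB i (i + 1), Real.log p / p := by
  unfold sm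
  rw [Finset.mul_sum]
  apply Finset.sum_le_sum
  intro p hp
  simp only [PB, mem_filter, mem_Ioc] at hp
  have hp0 : (0 : ℝ) < p := by
    have := hp.2.pos
    exact_mod_cast this
  have h1 : (i : ℝ) * Real.log 2 ≤ Real.log p := by
    rw [← Real.log_pow]
    apply Real.log_le_log (by positivity)
    have := hp.1.1.le
    exact_mod_cast this
  rw [mul_one_div]
  exact div_le_div_of_nonneg_right h1 hp0.le

lemma part_le (hA : MertA) (i1 j : ℕ) (h13 : 13 ≤ i1) (hj : i1 ≤ j) :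
    ∑ i ∈ Ico i1 j, (i : ℝ) * sm i (i + 1) ≤ ((j : ℝ) - i1) + 1.55 := by
  have h1 := hA i1 j h13 hj
  rw [sum_PB (fun p => Real.log p / p) i1 j hj] at h1
  have h2 : ∑ i ∈ Ico i1 j, (i : ℝ) * Real.log 2 * sm i (i + 1) ≤
      ((j : ℝ) - i1) * Real.log 2 + 1.07 :=
    (Finset.sum_le_sum (fun i _ => block_le i)).trans h1
  have h3 : ∑ i ∈ Ico i1 j, (i : ℝ) * Real.log 2 * sm i (i + 1) =
      Real.log 2 * ∑ i ∈ Ico i1 j, (i : ℝ) * sm i (i + 1) := by
    rw [Finset.mul_sum]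
    apply Finset.sum_congr rfl
    intro i _
    ring
  rw [h3] at h2
  have hl : (0.6931471803 : ℝ) < Real.log 2 := Real.log_two_gt_d9
  have hl0 : (0 : ℝ) < Real.log 2 := by linarith
  have h4 : Real.log 2 * ∑ i ∈ Ico i1 j, (i : ℝ) * sm i (i + 1) ≤
      Real.log 2 * (((j : ℝ) - i1) + 1.55) := by
    refine h2.trans ?_
    nlinarith
  exact le_of_mul_le_mul_left h4 hl0

/-- Abel summation against a nonincreasing weight -/
lemma abel (g a : ℕ → ℝ) (c : ℝ) (i1 i2 : ℕ) (h12 : i1 ≤ i2)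
    (hpart : ∀ j, i1 ≤ j → j ≤ i2 → ∑ i ∈ Ico i1 j, a i ≤ ((j : ℝ) - i1) + c)
    (hg : ∀ i, i1 ≤ i → i < i2 → g (i + 1) ≤ g i) (hg0 : 0 ≤ g i2) :
    ∑ i ∈ Ico i1 i2, g i * a i ≤ ∑ i ∈ Ico i1 i2, g i + c * g i1 := by
  have key : ∀ j, i1 ≤ j → j ≤ i2 →
      ∑ i ∈ Ico i1 j, g i * a i ≤ ∑ i ∈ Ico i1 j, g i + c * g i1
        - g j * (c - (∑ i ∈ Ico i1 j, a i - ((j : ℝ) - i1))) := by
    intro j hj
    induction j, hj using Nat.le_induction with
    | base =>
      intro _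
      simp only [Finset.Ico_self, Finset.sum_empty]
      nlinarith
    | succ j hj ih =>
      intro hj2
      have h1 := ih (by omega)
      have h2 := hpart (j + 1) (by omega) hj2
      have h3 := hg j hj (by omega)
      rw [Finset.sum_Ico_succ_top hj] at h2 ⊢
      rw [Finset.sum_Ico_succ_top hj, Finset.sum_Ico_succ_top hj]
      push_cast at h2 ⊢
      have h4 : 0 ≤ (g j - g (j + 1)) * (c - (∑ i ∈ Ico i1 j, a i + a j - ((j : ℝ) + 1 - i1))) := by
        apply mul_nonneg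
        · linarith
        · linarith
      nlinarith
  have h5 := key i2 h12 le_rfl
  have h6 := hpart i2 h12 le_rfl
  have h7 : 0 ≤ g i2 * (c - (∑ i ∈ Ico i1 i2, a i - ((i2 : ℝ) - i1))) := by
    apply mul_nonneg hg0
    linarith
  linarith

theorem sumS (hA : MertA) : SumS := by
  intro i1 i2 h13 h12
  have h := abel (fun i => 1 / (i : ℝ)) (fun i => (i : ℝ) * sm i (i + 1)) 1.55 i1 i2 h12
    (fun j hj _ => part_le hA i1 j h13 hj)
    (by
      intro i hi _
      have hi0 : (0 : ℝ) < i := by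
        have : 0 < i := by omega
        exact_mod_cast this
      apply one_div_le_one_div_of_le hi0
      push_cast
      linarith)
    (by positivity)
  have h1 : ∑ i ∈ Ico i1 i2, 1 / (i : ℝ) * ((i : ℝ) * sm i (i + 1)) = sm i1 i2 := by
    have h2 : sm i1 i2 = ∑ k ∈ Ico i1 i2, sm k (k + 1) := by
      unfold sm
      exact sum_PB (fun p => (1 : ℝ) / p) i1 i2 h12
    rw [h2]
    apply Finset.sum_congr rfl
    intro i hi
    rw [mem_Ico] at hi
    have hi0 : (i : ℝ) ≠ 0 := by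
      have : i ≠ 0 := by omega
      exact_mod_cast this
    field_simp
  rw [h1] at h
  unfold hr
  refine h.trans (le_of_eq ?_)
  ring

theorem sumW (hA : MertA) : SumW := by
  intro i1 i2 k h13 h12 h2k
  have hk1 : (i2 : ℝ) ≤ k := by exact_mod_cast h2k
  have h := abel (fun i => ((k : ℝ) - i) / (i : ℝ)) (fun i => (i : ℝ) * sm i (i + 1)) 1.55 i1 i2 h12
    (fun j hj _ => part_le hA i1 j h13 hj)
    (by
      intro i hi _
      have hi0 : (0 : ℝ) < i := by
        have : 0 < i := by omega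
        exact_mod_cast this
      have hk0 : (0 : ℝ) ≤ k := by positivity
      push_cast
      rw [div_le_div_iff₀ (by linarith) hi0]
      nlinarith)
    (by
      apply div_nonneg
      · linarith
      · positivity)
  have h1 : ∑ i ∈ Ico i1 i2, ((k : ℝ) - i) / (i : ℝ) * ((i : ℝ) * sm i (i + 1)) =
      ∑ i ∈ Ico i1 i2, ((k : ℝ) - i) * sm i (i + 1) := by
    apply Finset.sum_congr rfl
    intro i hi
    rw [mem_Ico] at hi
    have hi0 : (i : ℝ) ≠ 0 := by
      have : i ≠ 0 := by omega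
      exact_mod_cast this
    field_simp
  have h3 : ∑ i ∈ Ico i1 i2, ((k : ℝ) - i) / (i : ℝ) = k * hr i1 i2 - ((i2 : ℝ) - i1) := by
    unfold hr
    have h4 : ((i2 : ℝ) - i1) = ∑ i ∈ Ico i1 i2, (1 : ℝ) := by
      rw [Finset.sum_const, Nat.card_Ico, nsmul_eq_mul, mul_one, Nat.cast_sub h12]
    rw [h4, Finset.mul_sum, ← Finset.sum_sub_distrib]
    apply Finset.sum_congr rfl
    intro i hi
    rw [mem_Ico] at hi
    have hi0 : (i : ℝ) ≠ 0 := by
      have : i ≠ 0 := by omega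
      exact_mod_cast this
    field_simp
  rw [h1, h3] at h
  refine h.trans (le_of_eq ?_)
  ring

lemma one_div_le_log (i : ℕ) (hi : 1 ≤ i) :
    1 / (i : ℝ) ≤ Real.log ((2 * (i : ℝ) + 1) / (2 * i - 1)) := by
  have hi1 : (1 : ℝ) ≤ i := by exact_mod_cast hi
  have h0 : (0 : ℝ) < 2 * i - 1 := by linarith
  have h := Real.le_log_one_add_of_nonneg (x := 2 / (2 * (i : ℝ) - 1)) (by positivity)
  have h1 : 1 + 2 / (2 * (i : ℝ) - 1) = (2 * (i : ℝ) + 1) / (2 * i - 1) := by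
    field_simp
    ring
  have h2 : 2 * (2 / (2 * (i : ℝ) - 1)) / (2 / (2 * (i : ℝ) - 1) + 2) = 1 / (i : ℝ) := by
    have h3 : 2 / (2 * (i : ℝ) - 1) + 2 = 4 * i / (2 * i - 1) := by
      field_simp
      ring
    rw [h3]
    field_simp
    ring
  rw [h1, h2] at h
  exact h

theorem hrLog : HrLog := by
  intro i1 i2 h1 h12
  induction i2, h12 using Nat.le_induction with
  | base =>
    have hi1 : (1 : ℝ) ≤ i1 := by exact_mod_cast h1
    have h0 : (2 * (i1 : ℝ) - 1) ≠ 0 := by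
      have : (0 : ℝ) < 2 * i1 - 1 := by linarith
      exact this.ne'
    simp [hr, div_self h0]
  | succ j hj ih =>
    have hi1 : (1 : ℝ) ≤ i1 := by exact_mod_cast h1
    have hj1 : (1 : ℝ) ≤ j := by
      have : 1 ≤ j := by omega
      exact_mod_cast this
    have h0 : (0 : ℝ) < 2 * i1 - 1 := by linarith
    have h0' : (0 : ℝ) < 2 * j - 1 := by linarith
    unfold hr at ih ⊢
    rw [Finset.sum_Ico_succ_top hj]
    have h2 := one_div_le_log j (by omega)
    have h3 : Real.log ((2 * (j : ℝ) - 1) / (2 * i1 - 1)) + Real.log ((2 * (j : ℝ) + 1) / (2 * j - 1)) =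
        Real.log ((2 * ((j + 1 : ℕ) : ℝ) - 1) / (2 * i1 - 1)) := by
      rw [← Real.log_mul (by positivity) (by positivity)]
      congr 1
      push_cast
      field_simp
      ring
    linarith

lemma inv_le_exp (i p : ℕ) (hp : 2 ^ i < p) :
    (1 - (1 : ℝ) / p)⁻¹ ≤ Real.exp ((1 / (p : ℝ)) * (1 + 1 / 2 ^ i)) := by
  have h2 : (1 : ℝ) ≤ 2 ^ i := one_le_pow₀ (by norm_num)
  have hp1 : (2 : ℝ) ^ i + 1 ≤ p := by exact_mod_cast hp
  have hp0 : (0 : ℝ) < p := by linarith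
  have hp2 : (0 : ℝ) < p - 1 := by linarith
  have h3 : (1 - (1 : ℝ) / p)⁻¹ = 1 / ((p : ℝ) - 1) + 1 := by
    rw [show (1 - (1 : ℝ) / p) = (p - 1) / p by field_simp]
    field_simp
    ring
  have h4 : 1 / ((p : ℝ) - 1) ≤ (1 / (p : ℝ)) * (1 + 1 / 2 ^ i) := by
    have h5 : 1 / ((p : ℝ) - 1) = (1 / (p : ℝ)) * (1 + 1 / ((p : ℝ) - 1)) := by
      field_simp
      ring
    rw [h5]
    apply mul_le_mul_of_nonneg_left _ (by positivity)
    have h6 : 1 / ((p : ℝ) - 1) ≤ 1 / 2 ^ i := by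
      apply one_div_le_one_div_of_le (by positivity)
      linarith
    linarith
  rw [h3]
  exact (Real.add_one_le_exp _).trans (Real.exp_le_exp.mpr h4)

theorem sumV (hA : MertA) : SumV := by
  intro i1 i2 h13 h12 x hx hx1
  have hS := sumS hA i1 i2 h13 h12
  have hL := hrLog i1 i2 (by omega) h12
  have h1 : 1 / vp i1 i2 ≤ Real.exp (sm i1 i2 * (1 + 1 / 2 ^ i1)) := by
    unfold vp sm
    rw [one_div, ← Finset.prod_inv_distrib, Finset.sum_mul, Real.exp_sum]
    apply Finset.prod_le_prod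
    · intro p hp
      simp only [PB, mem_filter, mem_Ioc] at hp
      rw [inv_nonneg]
      have hp1 : (1 : ℝ) ≤ p := by
        have := hp.2.one_lt.le
        exact_mod_cast this
      have : (1 : ℝ) / p ≤ 1 := by
        rw [div_le_one (by linarith)]
        exact hp1
      linarith
    · intro p hp
      simp only [PB, mem_filter, mem_Ioc] at hp
      exact inv_le_exp i1 p hp.1.1
  have hi1 : (13 : ℝ) ≤ i1 := by exact_mod_cast h13
  have hi2 : (i1 : ℝ) ≤ i2 := by exact_mod_cast h12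
  have h0 : (0 : ℝ) < 2 * i1 - 1 := by linarith
  have h0' : (0 : ℝ) < 2 * i2 - 1 := by linarith
  have hs0 : 0 ≤ sm i1 i2 := by
    unfold sm
    positivity
  have hx0 : 0 ≤ x := by
    have : 0 ≤ 1.55 / (i1 : ℝ) + sm i1 i2 / 2 ^ i1 := by positivity
    linarith
  have h2 : sm i1 i2 * (1 + 1 / 2 ^ i1) ≤
      Real.log ((2 * (i2 : ℝ) - 1) / (2 * i1 - 1)) + x := by
    have : sm i1 i2 * (1 + 1 / 2 ^ i1) = sm i1 i2 + sm i1 i2 / 2 ^ i1 := by ring
    rw [this]
    linarith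
  have h3 : Real.exp x ≤ 1 + x + x ^ 2 := by
    have := Real.abs_exp_sub_one_sub_id_le (x := x) (by rw [abs_of_nonneg hx0]; exact hx1)
    have h4 := (abs_le.mp this).2
    linarith
  calc 1 / vp i1 i2 ≤ Real.exp (sm i1 i2 * (1 + 1 / 2 ^ i1)) := h1
    _ ≤ Real.exp (Real.log ((2 * (i2 : ℝ) - 1) / (2 * i1 - 1)) + x) := Real.exp_le_exp.mpr h2
    _ = (2 * (i2 : ℝ) - 1) / (2 * i1 - 1) * Real.exp x := by
        rw [Real.exp_add, Real.exp_log (by positivity)]
    _ ≤ (2 * (i2 : ℝ) - 1) / (2 * i1 - 1) * (1 + x + x ^ 2) := by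
        apply mul_le_mul_of_nonneg_left h3 (by positivity)

end Pool.Agent.Helper25.SQ
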